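import Mathlib

/-!
Patterns, their (non-erasing) languages, the number of variables and inclusion chains.
-/

namespace Pool.Agent.Helper92.IncDepth

/-- A pattern over the alphabet `α` as a list of symbols: `Sum.inl x` is the variable with
number `x`, `Sum.inr a` is the constant `a`. -/
abbrev Pattern (α : Type) := List (ℕ ⊕ α)

/-- The word substituted for a symbol by the substitution `σ`. -/
def substSymbol {α : Type} (σ : ℕ → List α) : ℕ ⊕ α → List α
  | Sum.inl x => σ x
  | Sum.inr a => [a]

/-- The non-erasing pattern language of `p`. -/
def patternLanguage {α : Type} (p : Pattern α) : Set (List α) :=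
  {w | ∃ σ : ℕ → List α, (∀ x, σ x ≠ []) ∧ w = p.flatMap (substSymbol σ)}

/-- The set of variables of `p`. -/
def patternVars {α : Type} (p : Pattern α) : Finset ℕ := (p.filterMap Sum.getLeft?).toFinset

/-- The number of distinct variables of `p`. -/
def numVar {α : Type} (p : Pattern α) : ℕ := (patternVars p).card

/-- The numbers `n` such that there is a strict chain of pattern languages with `n` strict
inclusions from `L(x)` (one single variable) down to `L(p)`. -/
def chainLengths {α : Type} (p : Pattern α) : Set ℕ :=
  {n | ∃ q : ℕ → Pattern α, (∀ i, q i ≠ []) ∧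
    patternLanguage (q 0) = patternLanguage [Sum.inl 0] ∧
    (∀ i < n, patternLanguage (q (i + 1)) ⊂ patternLanguage (q i)) ∧
    patternLanguage (q n) = patternLanguage p}

end Pool.Agent.Helper92.IncDepth
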