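import Mathlib
import Pool.Agent.Helper92.IncDepth.Defs

namespace Pool.Agent.Helper92.IncDepth

open Finset

variable {α : Type}

theorem mem_patternVars {p : Pattern α} {x : ℕ} : x ∈ patternVars p ↔ Sum.inl x ∈ p := by
  unfold patternVars
  rw [List.mem_toFinset, List.mem_filterMap]
  constructor
  · rintro ⟨a, ha, hx⟩
    cases a with
    | inl y =>
      simp only [Sum.getLeft?_inl, Option.some.injEq] at hx
      subst hx
      exact ha
    | inr b => simp at hx
  · intro h
    exact ⟨Sum.inl x, h, by simp⟩

open Classical in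
/-- The positions where a variable occurs for the first time. -/
noncomputable def firstPos (p : Pattern α) : Finset ℕ :=
  (range p.length).filter (fun i => ∃ x : ℕ, p[i]? = some (Sum.inl x) ∧
    ∀ j < i, p[j]? ≠ some (Sum.inl x))

/-- The variable at position `i` (or `0`). -/
def varAt (p : Pattern α) (i : ℕ) : ℕ :=
  match p[i]? with
  | some (Sum.inl x) => x
  | _ => 0

theorem varAt_eq {p : Pattern α} {i x : ℕ} (h : p[i]? = some (Sum.inl x)) : varAt p i = x := by
  simp [varAt, h]

theorem mem_firstPos {p : Pattern α} {i : ℕ} : i ∈ firstPos p ↔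
    ∃ x : ℕ, p[i]? = some (Sum.inl x) ∧ ∀ j < i, p[j]? ≠ some (Sum.inl x) := by
  classical
  unfold firstPos
  rw [Finset.mem_filter, Finset.mem_range]
  constructor
  · exact fun h => h.2
  · intro h
    refine ⟨?_, h⟩
    obtain ⟨x, hx, _⟩ := h
    by_contra hlt
    rw [List.getElem?_eq_none (by omega)] at hx
    exact absurd hx (by simp)

theorem exists_firstPos {p : Pattern α} {i x : ℕ} (h : p[i]? = some (Sum.inl x)) :
    ∃ a ≤ i, a ∈ firstPos p ∧ p[a]? = some (Sum.inl x) := by
  classical
  have hex : ∃ a, p[a]? = some (Sum.inl x) := ⟨i, h⟩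
  refine ⟨Nat.find hex, Nat.find_min' hex h, ?_, Nat.find_spec hex⟩
  rw [mem_firstPos]
  exact ⟨x, Nat.find_spec hex, fun j hj => Nat.find_min hex hj⟩

theorem firstPos_inj {p : Pattern α} {i j : ℕ} (hi : i ∈ firstPos p) (hj : j ∈ firstPos p)
    (h : varAt p i = varAt p j) : i = j := by
  rw [mem_firstPos] at hi hj
  obtain ⟨x, hx, hx'⟩ := hi
  obtain ⟨y, hy, hy'⟩ := hj
  rw [varAt_eq hx, varAt_eq hy] at h
  subst h
  rcases lt_trichotomy i j with h1 | h1 | h1
  · exact absurd hx (hy' i h1)
  · exact h1
  · exact absurd hy (hx' j h1)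

theorem card_firstPos (p : Pattern α) : (firstPos p).card = numVar p := by
  unfold numVar
  apply Finset.card_nbij (varAt p)
  · intro i hi
    have hi' := mem_firstPos.mp hi
    obtain ⟨x, hx, _⟩ := hi'
    rw [varAt_eq hx]
    exact mem_patternVars.mpr (List.mem_of_getElem? hx)
  · intro i hi j hj h
    exact firstPos_inj hi hj h
  · intro x hx
    have hx' := mem_patternVars.mp hx
    obtain ⟨i, hi⟩ := List.getElem?_of_mem hx'
    obtain ⟨a, _, ha, ha'⟩ := exists_firstPos hi
    exact ⟨a, ha, varAt_eq ha'⟩

theorem numVar_le_length (p : Pattern α) : numVar p ≤ p.length := by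
  classical
  rw [← card_firstPos]
  unfold firstPos
  refine (Finset.card_filter_le _ _).trans (by simp)

theorem substSymbol_ne_nil {σ : ℕ → List α} (h : ∀ x, σ x ≠ []) (s : ℕ ⊕ α) :
    substSymbol σ s ≠ [] := by
  cases s with
  | inl x => exact h x
  | inr a => simp [substSymbol]

theorem length_flatMap_ge {σ : ℕ → List α} (h : ∀ x, σ x ≠ []) (p : Pattern α) :
    p.length ≤ (p.flatMap (substSymbol σ)).length := by
  induction p with
  | nil => simp
  | cons s p ih =>
    rw [List.flatMap_cons, List.length_append, List.length_cons]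
    have := List.length_pos_of_ne_nil (substSymbol_ne_nil h s)
    omega

/-- The letter word of `p` under a letter assignment `f`. -/
def letterOf (f : ℕ → α) : ℕ ⊕ α → α := Sum.elim f id

theorem flatMap_singletons (f : ℕ → α) (p : Pattern α) :
    p.flatMap (substSymbol (fun x => [f x])) = p.map (letterOf f) := by
  induction p with
  | nil => rfl
  | cons s p ih =>
    rw [List.flatMap_cons, List.map_cons, ih]
    cases s <;> rfl

theorem letterWord_mem (f : ℕ → α) (p : Pattern α) : p.map (letterOf f) ∈ patternLanguage p :=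
  ⟨fun x => [f x], fun x => by simp, (flatMap_singletons f p).symm⟩

theorem length_le_of_subset [Nonempty α] {P Q : Pattern α}
    (h : patternLanguage P ⊆ patternLanguage Q) : Q.length ≤ P.length := by
  obtain ⟨a⟩ := ‹Nonempty α›
  obtain ⟨σ, hσ, hw⟩ := h (letterWord_mem (fun _ => a) P)
  have h1 := length_flatMap_ge hσ Q
  rw [← hw, List.length_map] at h1
  exact h1

/-- Reading the first letters of the blocks. -/
theorem parse {σ : ℕ → List α} (hσ : ∀ x, σ x ≠ []) (Q : Pattern α) (w : List α)
    (hw : w = Q.flatMap (substSymbol σ)) (d : ℕ) (hd : w.length = Q.length + d) :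
    ∃ c : ℕ → ℕ, Monotone c ∧ (∀ j, c j ≤ d) ∧
      ∀ j s, Q[j]? = some s → w[j + c j]? = (substSymbol σ s)[0]? := by
  let pos : ℕ → ℕ := fun i => ((Q.take i).flatMap (substSymbol σ)).length
  have hpos_ge : ∀ i ≤ Q.length, i ≤ pos i := by
    intro i hi
    have := length_flatMap_ge hσ (Q.take i)
    rw [List.length_take, min_eq_left hi] at this
    exact this
  have hstep : ∀ i s, Q[i]? = some s → pos (i + 1) = pos i + (substSymbol σ s).length := by
    intro i s hs
    simp only [pos]
    rw [List.take_add_one, hs, List.flatMap_append, List.length_append]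
    simp
  have hstep1 : ∀ i < Q.length, pos i + 1 ≤ pos (i + 1) := by
    intro i hi
    rw [hstep i Q[i] (List.getElem?_eq_getElem hi)]
    have := List.length_pos_of_ne_nil (substSymbol_ne_nil hσ Q[i])
    omega
  have hposn : pos Q.length = Q.length + d := by
    simp only [pos]
    rw [List.take_length, ← hw, hd]
  let c : ℕ → ℕ := fun i => pos (min i Q.length) - min i Q.length
  have hc : Monotone c := by
    apply monotone_nat_of_le_succ
    intro i
    simp only [c]
    rcases Nat.lt_or_ge i Q.length with h | h
    · rw [min_eq_left h.le, min_eq_left (Nat.succ_le_of_lt h)]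
      have h1 : pos i + 1 ≤ pos (i + 1) := hstep1 i h
      have h2 := hpos_ge i h.le
      change pos i - i ≤ pos (i + 1) - (i + 1)
      omega
    · rw [min_eq_right h, min_eq_right (h.trans (Nat.le_succ i))]
  have hcn : ∀ j, c j ≤ d := by
    intro j
    have h1 : c j ≤ c (max j Q.length) := hc (le_max_left _ _)
    have h2 : c (max j Q.length) = d := by
      simp only [c]
      rw [min_eq_right (le_max_right _ _), hposn]
      omega
    omega
  refine ⟨c, hc, hcn, ?_⟩
  intro j s hs
  have hj : j < Q.length := by
    by_contra h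
    rw [List.getElem?_eq_none (by omega)] at hs
    exact absurd hs (by simp)
  have hcj : j + c j = pos j := by
    simp only [c]
    rw [min_eq_left hj.le]
    have := hpos_ge j hj.le
    omega
  rw [hcj, hw]
  have hsplit : Q = Q.take j ++ s :: Q.drop (j + 1) := by
    have h1 : Q[j] = s := by
      rw [List.getElem?_eq_getElem hj] at hs
      exact Option.some.inj hs
    rw [← h1, ← List.drop_eq_getElem_cons hj, List.take_append_drop]
  have hfl : Q.flatMap (substSymbol σ) = (Q.take j).flatMap (substSymbol σ) ++
      (substSymbol σ s ++ (Q.drop (j + 1)).flatMap (substSymbol σ)) := by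
    conv_lhs => rw [hsplit]
    rw [List.flatMap_append, List.flatMap_cons]
  rw [hfl]
  rw [List.getElem?_append_right (le_refl _)]
  simp only [Nat.sub_self]
  rw [List.getElem?_append_left (List.length_pos_of_ne_nil (substSymbol_ne_nil hσ s))]

end Pool.Agent.Helper92.IncDepth
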