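import Mathlib

/-!
Lazy paths, read from right to left: a small family of event sets which contains, for every
monotone shift function, an event set fitting it.
-/

namespace Pool.Agent.Helper92.IncDepth

open Finset

/-- `E` is a set of (position, shift) events fitting the shift function `c` on the positions
below `i`. -/
structure Fits (C : ℕ → ℕ → Prop) (fst : ℕ → Option ℕ) (c : ℕ → ℕ) (i : ℕ) (F : Finset ℕ)
    (m : ℕ) (E : Finset (ℕ × ℕ)) : Prop where
  mem : ∀ p ∈ E, p.1 < i ∧ p.2 = c p.1
  pend : ∀ a ∈ F, (a, c a) ∈ E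
  tests : ∃ T : Finset (ℕ × ℕ), T ⊆ E ∧ T.card = m ∧ (∀ p ∈ T, C p.2 p.1) ∧
    ∀ p ∈ T, ∀ a, fst p.1 = some a → (a, c a) ∈ E

theorem choose_step {e s : ℕ} (he : 1 ≤ e) :
    Nat.choose (s + 1 + (e - 1)) (s + 1) + Nat.choose (s + e) s = Nat.choose (s + 1 + e) (s + 1) := by
  obtain ⟨e', rfl⟩ : ∃ e', e = e' + 1 := ⟨e - 1, by omega⟩
  have h1 : s + 1 + (e' + 1 - 1) = s + (e' + 1) := by omega
  have h2 : s + 1 + (e' + 1) = (s + (e' + 1)) + 1 := by omega
  rw [h1, h2, Nat.choose_succ_succ]
  ring

/-- Statement proved by induction on the number `i` of positions. -/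
def FamilyAt (C : ℕ → ℕ → Prop) (fst : ℕ → Option ℕ) (i s m : ℕ) (F : Finset ℕ) : Prop :=
  ∃ G : Finset (Finset (ℕ × ℕ)), G.card ≤ Nat.choose (s + (F.card + 2 * m)) s ∧
    ∀ c : ℕ → ℕ, Monotone c → (∀ j < i, c j ≤ s) → ∃ E ∈ G, Fits C fst c i F m E

/-- Every monotone shift function bounded by `s` has at least `m` tests below `i`. -/
def Enough (C : ℕ → ℕ → Prop) (i s m : ℕ) : Prop :=
  ∀ c : ℕ → ℕ, Monotone c → (∀ j, c j ≤ s) → ∃ T : Finset ℕ, T.card = m ∧
    ∀ j ∈ T, j < i ∧ C (c j) j

theorem Enough.mono_shift {C : ℕ → ℕ → Prop} {i s s' m : ℕ} (h : Enough C i s m) (hs : s' ≤ s) :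
    Enough C i s' m := fun c hc hb => h c hc (fun j => (hb j).trans hs)

theorem Enough.pred_of_not {C : ℕ → ℕ → Prop} {i s m : ℕ} (h : Enough C (i + 1) s m)
    (hn : m = 0 ∨ ¬ C s i) : Enough C i s m := by
  intro c hc hb
  rcases hn with rfl | hn
  · exact ⟨∅, rfl, by simp⟩
  · let c' : ℕ → ℕ := fun j => if j < i then c j else s
    have hc' : Monotone c' := by
      intro a b hab
      simp only [c']
      split_ifs with h1 h2 h2
      · exact hc hab
      · exact hb a
      · omega
      · exact le_rfl
    obtain ⟨T, hT, hT'⟩ := h c' hc' (by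
      intro j
      simp only [c']
      split_ifs
      · exact hb j
      · exact le_rfl)
    refine ⟨T, hT, ?_⟩
    intro j hj
    obtain ⟨h1, h2⟩ := hT' j hj
    have hji : j < i := by
      rcases Nat.lt_succ_iff_lt_or_eq.mp h1 with h3 | h3
      · exact h3
      · exfalso
        subst h3
        simp only [c', lt_irrefl, if_false] at h2
        exact hn h2
    refine ⟨hji, ?_⟩
    simpa only [c', hji, if_true] using h2

theorem Enough.pred_test {C : ℕ → ℕ → Prop} {i s m : ℕ} (h : Enough C (i + 1) s m)
    (hm : 1 ≤ m) : Enough C i s (m - 1) := by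
  intro c hc hb
  let c' : ℕ → ℕ := fun j => if j < i then c j else s
  have hc' : Monotone c' := by
    intro a b hab
    simp only [c']
    split_ifs with h1 h2 h2
    · exact hc hab
    · exact hb a
    · omega
    · exact le_rfl
  obtain ⟨T, hT, hT'⟩ := h c' hc' (by
    intro j
    simp only [c']
    split_ifs
    · exact hb j
    · exact le_rfl)
  have hle : m - 1 ≤ (T.erase i).card := by
    rw [← hT]
    exact Finset.pred_card_le_card_erase
  obtain ⟨T', hT'1, hT'2⟩ := Finset.exists_subset_card_eq hle
  refine ⟨T', hT'2, ?_⟩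
  intro j hj
  have hj' := hT'1 hj
  rw [Finset.mem_erase] at hj'
  obtain ⟨h1, h2⟩ := hT' j hj'.2
  have hji : j < i := by omega
  refine ⟨hji, ?_⟩
  simpa only [c', hji, if_true] using h2

theorem Fits.succ {C : ℕ → ℕ → Prop} {fst : ℕ → Option ℕ} {c : ℕ → ℕ} {i : ℕ} {F : Finset ℕ}
    {m : ℕ} {E : Finset (ℕ × ℕ)} (h : Fits C fst c i F m E) : Fits C fst c (i + 1) F m E :=
  ⟨fun p hp => ⟨(h.mem p hp).1.trans (Nat.lt_succ_self i), (h.mem p hp).2⟩, h.pend, h.tests⟩

open Classical in
/-- The branch where an event is recorded at position `i` with shift `s`. -/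
theorem record_branch (C : ℕ → ℕ → Prop) (fst : ℕ → Option ℕ)
    (hfst : ∀ j a, fst j = some a → a < j) (hC : ∀ j a s, fst j = some a → ¬ C s a)
    (i s m : ℕ) (F : Finset ℕ) (hF : ∀ a ∈ F, a < i + 1) (hFC : ∀ a ∈ F, ∀ s, ¬ C s a)
    (IH : ∀ (s m : ℕ) (F : Finset ℕ), (∀ a ∈ F, a < i) → (∀ a ∈ F, ∀ s, ¬ C s a) →
      Enough C i s m → FamilyAt C fst i s m F)
    (H : Enough C (i + 1) s m) (htrig : i ∈ F ∨ (1 ≤ m ∧ C s i)) :
    ∃ G : Finset (Finset (ℕ × ℕ)), G.card ≤ Nat.choose (s + ((F.card + 2 * m) - 1)) s ∧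
    ∀ c : ℕ → ℕ, Monotone c → (∀ j < i + 1, c j ≤ s) → c i = s →
      ∃ E ∈ G, Fits C fst c (i + 1) F m E := by
  by_cases hiF : i ∈ F
  · -- pending first occurrence
    have hiC : ∀ s, ¬ C s i := hFC i hiF
    have hF' : ∀ a ∈ F.erase i, a < i := by
      intro a ha
      rw [Finset.mem_erase] at ha
      have := hF a ha.2
      omega
    obtain ⟨G, hG, hG'⟩ := IH s m (F.erase i) hF'
      (fun a ha => hFC a (Finset.mem_of_mem_erase ha)) (H.pred_of_not (Or.inr (hiC s)))
    refine ⟨G.image (insert (i, s)), ?_, ?_⟩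
    · refine (Finset.card_image_le).trans (hG.trans ?_)
      have hc : (F.erase i).card = F.card - 1 := Finset.card_erase_of_mem hiF
      have hpos : 1 ≤ F.card := Finset.card_pos.mpr ⟨i, hiF⟩
      rw [hc]
      apply Nat.choose_le_choose
      omega
    · intro c hc hb hci
      obtain ⟨E, hE, hfit⟩ := hG' c hc (fun j hj => hb j (by omega))
      refine ⟨insert (i, s) E, Finset.mem_image_of_mem _ hE, ?_, ?_, ?_⟩
      · intro p hp
        rcases Finset.mem_insert.mp hp with rfl | hp
        · exact ⟨Nat.lt_succ_self i, hci.symm⟩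
        · exact ⟨(hfit.mem p hp).1.trans (Nat.lt_succ_self i), (hfit.mem p hp).2⟩
      · intro a ha
        by_cases hai : a = i
        · subst hai
          rw [hci]
          exact Finset.mem_insert_self _ _
        · exact Finset.mem_insert_of_mem (hfit.pend a (Finset.mem_erase.mpr ⟨hai, ha⟩))
      · obtain ⟨T, hT1, hT2, hT3, hT4⟩ := hfit.tests
        exact ⟨T, hT1.trans (Finset.subset_insert _ _), hT2, hT3,
          fun p hp a ha => Finset.mem_insert_of_mem (hT4 p hp a ha)⟩
  · have htrig' : 1 ≤ m ∧ C s i := by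
      rcases htrig with h | h
      · exact absurd h hiF
      · exact h
    obtain ⟨hm, hCi⟩ := htrig'
    have hF0 : ∀ a ∈ F, a < i := by
      intro a ha
      have := hF a ha
      have hne : a ≠ i := fun h => hiF (h ▸ ha)
      omega
    -- the new pending set
    obtain ⟨F', hF'sub, hF'card, hF'lt, hF'C, hF'ref⟩ : ∃ F' : Finset ℕ, F ⊆ F' ∧
        F'.card ≤ F.card + 1 ∧ (∀ a ∈ F', a < i) ∧ (∀ a ∈ F', ∀ s, ¬ C s a) ∧
        ∀ a, fst i = some a → a ∈ F' := by
      cases hfi : fst i with
      | none =>
        exact ⟨F, Finset.Subset.refl F, Nat.le_succ _, hF0, hFC, by simp⟩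
      | some b =>
        refine ⟨insert b F, Finset.subset_insert _ _, Finset.card_insert_le _ _, ?_, ?_, ?_⟩
        · intro a ha
          rcases Finset.mem_insert.mp ha with rfl | ha
          · exact hfst i a hfi
          · exact hF0 a ha
        · intro a ha
          rcases Finset.mem_insert.mp ha with rfl | ha
          · exact fun s => hC i a s hfi
          · exact hFC a ha
        · intro a ha
          have : b = a := by simpa using ha
          subst this
          exact Finset.mem_insert_self _ _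
    obtain ⟨G, hG, hG'⟩ := IH s (m - 1) F' hF'lt hF'C (H.pred_test hm)
    refine ⟨G.image (insert (i, s)), ?_, ?_⟩
    · refine (Finset.card_image_le).trans (hG.trans ?_)
      apply Nat.choose_le_choose
      omega
    · intro c hc hb hci
      obtain ⟨E, hE, hfit⟩ := hG' c hc (fun j hj => hb j (by omega))
      refine ⟨insert (i, s) E, Finset.mem_image_of_mem _ hE, ?_, ?_, ?_⟩
      · intro p hp
        rcases Finset.mem_insert.mp hp with rfl | hp
        · exact ⟨Nat.lt_succ_self i, hci.symm⟩
        · exact ⟨(hfit.mem p hp).1.trans (Nat.lt_succ_self i), (hfit.mem p hp).2⟩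
      · intro a ha
        exact Finset.mem_insert_of_mem (hfit.pend a (hF'sub ha))
      · obtain ⟨T, hT1, hT2, hT3, hT4⟩ := hfit.tests
        refine ⟨insert (i, s) T, Finset.insert_subset_insert _ hT1, ?_, ?_, ?_⟩
        · rw [Finset.card_insert_of_notMem, hT2]
          · omega
          · intro h
            exact absurd (hfit.mem _ (hT1 h)).1 (lt_irrefl i)
        · intro p hp
          rcases Finset.mem_insert.mp hp with rfl | hp
          · exact hCi
          · exact hT3 p hp
        · intro p hp a ha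
          rcases Finset.mem_insert.mp hp with rfl | hp
          · exact Finset.mem_insert_of_mem (hfit.pend a (hF'ref a ha))
          · exact Finset.mem_insert_of_mem (hT4 p hp a ha)

open Classical in
theorem exists_family (C : ℕ → ℕ → Prop) (fst : ℕ → Option ℕ)
    (hfst : ∀ j a, fst j = some a → a < j) (hC : ∀ j a s, fst j = some a → ¬ C s a) :
    ∀ (i s m : ℕ) (F : Finset ℕ), (∀ a ∈ F, a < i) → (∀ a ∈ F, ∀ s, ¬ C s a) →
     Enough C i s m → FamilyAt C fst i s m F := by
  intro i
  induction i with
  | zero =>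
    intro s m F hF hFC H
    have hm : m = 0 := by
      obtain ⟨T, hT, hT'⟩ := H (fun _ => 0) (fun _ _ _ => le_rfl) (fun _ => Nat.zero_le _)
      rw [← hT, Finset.card_eq_zero]
      apply Finset.eq_empty_of_forall_notMem
      intro a ha
      exact absurd (hT' a ha).1 (Nat.not_lt_zero a)
    have hF0 : F = ∅ := by
      apply Finset.eq_empty_of_forall_notMem
      intro a ha
      exact absurd (hF a ha) (Nat.not_lt_zero a)
    subst hm hF0
    refine ⟨{∅}, by simp, ?_⟩
    intro c _ _
    exact ⟨∅, by simp, ⟨by simp, by simp, ∅, by simp, by simp, by simp, by simp⟩⟩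
  | succ i IH =>
    intro s
    induction s with
    | zero =>
      intro m F hF hFC H
      by_cases htrig : i ∈ F ∨ (1 ≤ m ∧ C 0 i)
      · obtain ⟨G, hG, hG'⟩ := record_branch C fst hfst hC i 0 m F hF hFC IH H htrig
        refine ⟨G, hG.trans (by simp), ?_⟩
        intro c hc hb
        exact hG' c hc hb (by have := hb i (Nat.lt_succ_self i); omega)
      · rw [not_or] at htrig
        have hF0 : ∀ a ∈ F, a < i := by
          intro a ha
          have := hF a ha
          have hne : a ≠ i := fun h => htrig.1 (h ▸ ha)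
          omega
        have hn : m = 0 ∨ ¬ C 0 i := by
          by_cases h : C 0 i
          · left
            by_contra hm
            exact htrig.2 ⟨by omega, h⟩
          · exact Or.inr h
        obtain ⟨G, hG, hG'⟩ := IH 0 m F hF0 hFC (H.pred_of_not hn)
        refine ⟨G, hG, ?_⟩
        intro c hc hb
        obtain ⟨E, hE, hfit⟩ := hG' c hc (fun j hj => hb j (by omega))
        exact ⟨E, hE, hfit.succ⟩
    | succ s IHs =>
      intro m F hF hFC H
      by_cases htrig : i ∈ F ∨ (1 ≤ m ∧ C (s + 1) i)
      · obtain ⟨G, hG, hG'⟩ := record_branch C fst hfst hC i (s + 1) m F hF hFC IH H htrig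
        obtain ⟨G2, hG2, hG2'⟩ := IHs m F hF hFC (H.mono_shift (Nat.le_succ s))
        have he : 1 ≤ F.card + 2 * m := by
          rcases htrig with h | h
          · have : 1 ≤ F.card := Finset.card_pos.mpr ⟨i, h⟩
            omega
          · omega
        refine ⟨G ∪ G2, ?_, ?_⟩
        · refine (Finset.card_union_le _ _).trans ?_
          rw [← choose_step he]
          exact Nat.add_le_add hG hG2
        · intro c hc hb
          by_cases hci : c i = s + 1
          · obtain ⟨E, hE, hfit⟩ := hG' c hc hb hci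
            exact ⟨E, Finset.mem_union_left _ hE, hfit⟩
          · have hci' : c i ≤ s := by
              have := hb i (Nat.lt_succ_self i)
              omega
            obtain ⟨E, hE, hfit⟩ := hG2' c hc (fun j hj => (hc (by omega : j ≤ i)).trans hci')
            exact ⟨E, Finset.mem_union_right _ hE, hfit⟩
      · rw [not_or] at htrig
        have hF0 : ∀ a ∈ F, a < i := by
          intro a ha
          have := hF a ha
          have hne : a ≠ i := fun h => htrig.1 (h ▸ ha)
          omega
        have hn : m = 0 ∨ ¬ C (s + 1) i := by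
          by_cases h : C (s + 1) i
          · left
            by_contra hm
            exact htrig.2 ⟨by omega, h⟩
          · exact Or.inr h
        obtain ⟨G, hG, hG'⟩ := IH (s + 1) m F hF0 hFC (H.pred_of_not hn)
        refine ⟨G, hG, ?_⟩
        intro c hc hb
        obtain ⟨E, hE, hfit⟩ := hG' c hc (fun j hj => hb j (by omega))
        exact ⟨E, hE, hfit.succ⟩

end Pool.Agent.Helper92.IncDepth
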