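import Mathlib
import Pool.Agent.Helper92.IncDepth.Basic
import Pool.Agent.Helper92.IncDepth.Family

namespace Pool.Agent.Helper92.IncDepth

open Finset

variable {α : Type}

/-- Position `j` of `Q` is not a first occurrence and is read, with shift `s`, at a first
occurrence of `P`. -/
def IsTest (P Q : Pattern α) (s j : ℕ) : Prop :=
  j < Q.length ∧ j ∉ firstPos Q ∧ j + s ∈ firstPos P

open Classical in
/-- The first occurrence of the variable at position `j` of `Q`, if it is before `j`. -/
noncomputable def refPos (Q : Pattern α) (j : ℕ) : Option ℕ :=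
  if h : ∃ a, a < j ∧ a ∈ firstPos Q ∧ ∃ y : ℕ, Q[a]? = some (Sum.inl y) ∧
      Q[j]? = some (Sum.inl y) then some h.choose else none

theorem refPos_spec {Q : Pattern α} {j a : ℕ} (h : refPos Q j = some a) :
    a < j ∧ a ∈ firstPos Q ∧ ∃ y : ℕ, Q[a]? = some (Sum.inl y) ∧ Q[j]? = some (Sum.inl y) := by
  unfold refPos at h
  split_ifs at h with h'
  have h2 := h'.choose_spec
  have h3 : h'.choose = a := by simpa using h
  rw [h3] at h2
  exact h2

theorem refPos_exists {Q : Pattern α} {j y : ℕ} (hj : j ∉ firstPos Q)
    (hy : Q[j]? = some (Sum.inl y)) : ∃ a, refPos Q j = some a := by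
  obtain ⟨a, ha, ha1, ha2⟩ := exists_firstPos hy
  have hne : a ≠ j := fun h => hj (h ▸ ha1)
  have hex : ∃ a, a < j ∧ a ∈ firstPos Q ∧ ∃ y : ℕ, Q[a]? = some (Sum.inl y) ∧
      Q[j]? = some (Sum.inl y) := ⟨a, by omega, ha1, y, ha2, hy⟩
  refine ⟨hex.choose, ?_⟩
  unfold refPos
  rw [dif_pos hex]

theorem enough (P Q : Pattern α) (d m : ℕ) (hlen : P.length = Q.length + d)
    (hm : numVar Q + d + m ≤ numVar P) : Enough (IsTest P Q) Q.length d m := by
  classical
  intro c hc hb
  let e : ℕ → ℕ := fun j => j + c j
  have he : StrictMono e := by
    intro a b hab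
    have := hc hab.le
    simp only [e]
    omega
  let T0 : Finset ℕ := (range Q.length).filter (fun j => IsTest P Q (c j) j)
  have hsub : firstPos P ⊆ (T0.image e ∪ (firstPos Q).image e) ∪
      (range P.length \ (range Q.length).image e) := by
    intro k hk
    have hkP : k < P.length := by
      have := hk
      unfold firstPos at this
      rw [Finset.mem_filter, Finset.mem_range] at this
      exact this.1
    by_cases hke : k ∈ (range Q.length).image e
    · apply Finset.mem_union_left
      rw [Finset.mem_image] at hke
      obtain ⟨j, hj, rfl⟩ := hke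
      rw [Finset.mem_range] at hj
      by_cases hjQ : j ∈ firstPos Q
      · exact Finset.mem_union_right _ (Finset.mem_image_of_mem _ hjQ)
      · apply Finset.mem_union_left
        apply Finset.mem_image_of_mem
        rw [Finset.mem_filter, Finset.mem_range]
        exact ⟨hj, hj, hjQ, hk⟩
    · apply Finset.mem_union_right
      rw [Finset.mem_sdiff, Finset.mem_range]
      exact ⟨hkP, hke⟩
  have himg : ((range Q.length).image e).card = Q.length := by
    rw [Finset.card_image_of_injective _ he.injective, Finset.card_range]
  have himgsub : (range Q.length).image e ⊆ range P.length := by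
    intro k hk
    rw [Finset.mem_image] at hk
    obtain ⟨j, hj, rfl⟩ := hk
    rw [Finset.mem_range] at hj ⊢
    have := hb j
    simp only [e]
    omega
  have hcard : (firstPos P).card ≤ T0.card + (firstPos Q).card + d := by
    refine (Finset.card_le_card hsub).trans ?_
    refine (Finset.card_union_le _ _).trans ?_
    have h1 : (T0.image e ∪ (firstPos Q).image e).card ≤ T0.card + (firstPos Q).card :=
      (Finset.card_union_le _ _).trans (Nat.add_le_add Finset.card_image_le Finset.card_image_le)
    have h2 : (range P.length \ (range Q.length).image e).card = d := by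
      rw [Finset.card_sdiff_of_subset himgsub, himg, Finset.card_range]
      omega
    omega
  rw [card_firstPos, card_firstPos] at hcard
  have hT0 : m ≤ T0.card := by omega
  obtain ⟨T, hT, hTm⟩ := Finset.exists_subset_card_eq hT0
  refine ⟨T, hTm, ?_⟩
  intro j hj
  have := hT hj
  rw [Finset.mem_filter, Finset.mem_range] at this
  exact this

/-- Extension of an assignment of the variables of `P` to all variables. -/
noncomputable def extendFun (a0 : α) (S : Finset ℕ) (w : {x // x ∈ S} → α) : ℕ → α := by
  classical
  exact fun x => if h : x ∈ S then w ⟨x, h⟩ else a0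

theorem extendFun_mem (a0 : α) (S : Finset ℕ) (w : {x // x ∈ S} → α) {x : ℕ} (h : x ∈ S) :
    extendFun a0 S w x = w ⟨x, h⟩ := by
  unfold extendFun
  rw [dif_pos h]

theorem main_count [Fintype α] [Nonempty α] (P Q : Pattern α)
    (hlang : patternLanguage P ⊆ patternLanguage Q) (d m : ℕ)
    (hlen : P.length = Q.length + d) (hm : numVar Q + d + m ≤ numVar P) :
    (Fintype.card α) ^ m ≤ Nat.choose (d + 2 * m) d := by
  classical
  obtain ⟨a0⟩ := ‹Nonempty α›
  have hfst : ∀ j a, refPos Q j = some a → a < j := fun j a h => (refPos_spec h).1
  have hC : ∀ j a s, refPos Q j = some a → ¬ IsTest P Q s a :=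
    fun j a s h h2 => h2.2.1 (refPos_spec h).2.1
  obtain ⟨G, hG, hG'⟩ := exists_family (IsTest P Q) (refPos Q) hfst hC Q.length d m ∅
    (by simp) (by simp) (enough P Q d m hlen hm)
  rw [Finset.card_empty, zero_add] at hG
  set S := patternVars P with hS
  -- the path of an assignment
  have hpath : ∀ w : {x // x ∈ S} → α, ∃ (c : ℕ → ℕ) (β : ℕ → α), Monotone c ∧ (∀ j, c j ≤ d) ∧
      ∀ j s, Q[j]? = some s → ∃ t, P[j + c j]? = some t ∧
        letterOf (extendFun a0 S w) t = letterOf β s := by
    intro w
    obtain ⟨σ, hσ, hw⟩ := hlang (letterWord_mem (extendFun a0 S w) P)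
    obtain ⟨c, hc, hcd, hcr⟩ := parse hσ Q _ hw d (by rw [List.length_map, hlen])
    refine ⟨c, fun x => (σ x).head (hσ x), hc, hcd, ?_⟩
    intro j s hs
    have h1 := hcr j s hs
    rw [List.getElem?_map] at h1
    have h2 : (substSymbol σ s)[0]? = some (letterOf (fun x => (σ x).head (hσ x)) s) := by
      cases s with
      | inl x =>
        have h3 : substSymbol σ (Sum.inl x) = σ x := rfl
        rw [h3]
        have h4 : letterOf (fun x => (σ x).head (hσ x)) (Sum.inl x) = (σ x).head (hσ x) := rfl
        rw [h4]
        rw [← List.head?_eq_getElem?, List.head?_eq_some_head (hσ x)]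
      | inr a => rfl
    rw [h2] at h1
    cases hP : P[j + c j]? with
    | none => rw [hP] at h1; simp at h1
    | some t =>
      rw [hP] at h1
      simp only [Option.map_some, Option.some.injEq] at h1
      exact ⟨t, rfl, h1⟩
  choose cw βw hmono hle hread using hpath
  have hE : ∀ w : {x // x ∈ S} → α, ∃ E ∈ G, Fits (IsTest P Q) (refPos Q) (cw w) Q.length ∅ m E :=
    fun w => hG' (cw w) (hmono w) (fun j _ => hle w j)
  choose Ew hEG hfit using hE
  set k := Fintype.card α with hk
  -- fibres
  have hfib : ∀ E ∈ G, ((Finset.univ : Finset ({x // x ∈ S} → α)).filter (fun w => Ew w = E)).card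
      ≤ k ^ (numVar P - m) := by
    intro E _
    rcases Finset.eq_empty_or_nonempty
      ((Finset.univ : Finset ({x // x ∈ S} → α)).filter (fun w => Ew w = E)) with h0 | ⟨w0, hw0⟩
    · rw [h0]; simp
    rw [Finset.mem_filter] at hw0
    have hfit0 := hfit w0
    rw [hw0.2] at hfit0
    obtain ⟨T, hTE, hTm, hTC, hTref⟩ := hfit0.tests
    set c0 := cw w0 with hc0
    -- cells of the tests
    let cell : ℕ × ℕ → ℕ := fun p => p.1 + p.2
    have hcellP : ∀ p ∈ T, cell p ∈ firstPos P := fun p hp => (hTC p hp).2.2
    have hcellinj : Set.InjOn cell (T : Set (ℕ × ℕ)) := by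
      intro p hp q hq hpq
      have hp' := hfit0.mem p (hTE hp)
      have hq' := hfit0.mem q (hTE hq)
      have h1 : p.1 + c0 p.1 = q.1 + c0 q.1 := by
        rw [← hp'.2, ← hq'.2]
        exact hpq
      have h2 : p.1 = q.1 := by
        rcases lt_trichotomy p.1 q.1 with h | h | h
        · have := hmono w0 h.le
          simp only [hc0] at h1
          omega
        · exact h
        · have := hmono w0 h.le
          simp only [hc0] at h1
          omega
      apply Prod.ext h2
      rw [hp'.2, hq'.2, h2]
    let U : Finset ℕ := T.image (fun p => varAt P (cell p))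
    have hUcard : U.card = m := by
      rw [← hTm]
      apply Finset.card_image_of_injOn
      intro p hp q hq hpq
      exact hcellinj hp hq (firstPos_inj (hcellP p hp) (hcellP q hq) hpq)
    have hUS : U ⊆ S := by
      intro x hx
      rw [Finset.mem_image] at hx
      obtain ⟨p, hp, rfl⟩ := hx
      obtain ⟨x, hx, _⟩ := mem_firstPos.mp (hcellP p hp)
      rw [varAt_eq hx, hS]
      exact mem_patternVars.mpr (List.mem_of_getElem? hx)
    -- the injection
    have hcardfun : Fintype.card ({x // x ∈ S \ U} → α) = k ^ (numVar P - m) := by
      rw [Fintype.card_fun, Fintype.card_coe, Finset.card_sdiff_of_subset hUS, hUcard]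
      rfl
    rw [← hcardfun, ← Finset.card_univ]
    apply Finset.card_le_card_of_injOn
      (fun w => fun x : {x // x ∈ S \ U} => w ⟨x.1, (Finset.mem_sdiff.mp x.2).1⟩)
    · intro w _
      exact Finset.mem_coe.mpr (Finset.mem_univ _)
    · intro w hw w' hw' hww'
      have hwE : Ew w = E := (Finset.mem_filter.mp (Finset.mem_coe.mp hw)).2
      have hwE' : Ew w' = E := (Finset.mem_filter.mp (Finset.mem_coe.mp hw')).2
      have hagree : ∀ x (hx : x ∈ S), x ∉ U → w ⟨x, hx⟩ = w' ⟨x, hx⟩ := by
        intro x hx hxU
        have := congrFun hww' ⟨x, Finset.mem_sdiff.mpr ⟨hx, hxU⟩⟩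
        exact this
      -- equations satisfied by words of the fibre
      have heqn : ∀ u : {x // x ∈ S} → α, Ew u = E → ∀ p ∈ T, ∀ t, P[cell p]? = some t →
          (∀ b, Q[p.1]? = some (Sum.inr b) → letterOf (extendFun a0 S u) t = b) ∧
          (∀ a, refPos Q p.1 = some a → ∃ t', P[a + c0 a]? = some t' ∧
            letterOf (extendFun a0 S u) t = letterOf (extendFun a0 S u) t') := by
        intro u hu p hp t ht
        have hfu := hfit u
        rw [hu] at hfu
        have hpu := hfu.mem p (hTE hp)
        have hcell : cell p = p.1 + cw u p.1 := by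
          simp only [cell]
          rw [hpu.2]
        constructor
        · intro b hb
          obtain ⟨t1, ht1, ht2⟩ := hread u p.1 _ hb
          rw [← hcell, ht] at ht1
          rw [Option.some.inj ht1, ht2]
          rfl
        · intro a ha
          obtain ⟨haj, haF, y, hya, hyj⟩ := refPos_spec ha
          have hmemE : (a, c0 a) ∈ E := hTref p hp a ha
          have hac : c0 a = cw u a := (hfu.mem _ hmemE).2
          obtain ⟨t1, ht1, ht2⟩ := hread u p.1 _ hyj
          obtain ⟨t3, ht3, ht4⟩ := hread u a _ hya
          rw [← hcell, ht] at ht1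
          rw [← hac] at ht3
          refine ⟨t3, ht3, ?_⟩
          rw [Option.some.inj ht1, ht2, ht4]
      -- equality at all cells
      have hall : ∀ (κ : ℕ) (t : ℕ ⊕ α), P[κ]? = some t →
          letterOf (extendFun a0 S w) t = letterOf (extendFun a0 S w') t := by
        intro κ
        induction κ using Nat.strong_induction_on with
        | _ κ ih =>
          intro t ht
          cases t with
          | inr a => rfl
          | inl x =>
            have hxS : x ∈ S := by
              rw [hS]
              exact mem_patternVars.mpr (List.mem_of_getElem? ht)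
            by_cases hxU : x ∈ U
            · rw [Finset.mem_image] at hxU
              obtain ⟨p, hp, hpx⟩ := hxU
              obtain ⟨x', hx', hx''⟩ := mem_firstPos.mp (hcellP p hp)
              have hxx : x' = x := by
                rw [← hpx, varAt_eq hx']
              subst hxx
              have hcellle : cell p ≤ κ := by
                by_contra h
                exact hx'' κ (by omega) ht
              -- the symbol of `Q`
              have hp1 : p.1 < Q.length := (hTC p hp).1
              have hQp : Q[p.1]? = some Q[p.1] := List.getElem?_eq_getElem hp1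
              have e1 := heqn w hwE p hp _ hx'
              have e2 := heqn w' hwE' p hp _ hx'
              cases hsym : Q[p.1] with
              | inr b =>
                rw [hsym] at hQp
                rw [e1.1 b hQp, e2.1 b hQp]
              | inl y =>
                rw [hsym] at hQp
                obtain ⟨a, ha⟩ := refPos_exists (hTC p hp).2.1 hQp
                obtain ⟨t1, ht1, ht2⟩ := e1.2 a ha
                obtain ⟨t3, ht3, ht4⟩ := e2.2 a ha
                have ht13 : t1 = t3 := by
                  rw [ht1] at ht3
                  exact Option.some.inj ht3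
                subst ht13
                rw [ht2, ht4]
                apply ih (a + c0 a) _ t1 ht1
                have haj := hfst p.1 a ha
                have h1 : c0 a ≤ c0 p.1 := hmono w0 haj.le
                have h2 := (hfit0.mem p (hTE hp)).2
                have h3 : cell p = p.1 + p.2 := rfl
                omega
            · change extendFun a0 S w x = extendFun a0 S w' x
              rw [extendFun_mem a0 S w hxS, extendFun_mem a0 S w' hxS]
              exact hagree x hxS hxU
      funext x
      obtain ⟨x, hx⟩ := x
      have hxP : Sum.inl x ∈ P := by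
        rw [hS] at hx
        exact mem_patternVars.mp hx
      obtain ⟨κ, hκ⟩ := List.getElem?_of_mem hxP
      have := hall κ _ hκ
      change extendFun a0 S w x = extendFun a0 S w' x at this
      rw [extendFun_mem a0 S w hx, extendFun_mem a0 S w' hx] at this
      exact this
  have htotal : (Finset.univ : Finset ({x // x ∈ S} → α)).card ≤ k ^ (numVar P - m) * G.card :=
    Finset.card_le_mul_card_image_of_maps_to (f := Ew) (fun w _ => hEG w) _ hfib
  have hcardS : (Finset.univ : Finset ({x // x ∈ S} → α)).card = k ^ numVar P := by
    rw [Finset.card_univ, Fintype.card_fun, Fintype.card_coe]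
    rfl
  rw [hcardS] at htotal
  have hmV : m ≤ numVar P := by omega
  have hsplit : k ^ numVar P = k ^ (numVar P - m) * k ^ m := by
    rw [← pow_add]
    congr 1
    omega
  rw [hsplit] at htotal
  have hkpos : 0 < k := Fintype.card_pos_iff.mpr ⟨a0⟩
  have := Nat.le_of_mul_le_mul_left htotal (pow_pos hkpos _)
  exact this.trans hG

end Pool.Agent.Helper92.IncDepth
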