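import Mathlib
import Pool.Agent.Helper92.IncDepth.Count

namespace Pool.Agent.Helper92.IncDepth

open Finset

variable {α : Type}

theorem choose_bound (r d : ℕ) :
    Nat.choose (d + 2 * (r * d)) d * ((2 * r) ^ (2 * r)) ^ d ≤ ((2 * r + 1) ^ (2 * r + 1)) ^ d := by
  have h1 : (2 * r + 1) ^ ((2 * r + 1) * d) = ∑ j ∈ range ((2 * r + 1) * d + 1),
      (2 * r) ^ j * 1 ^ ((2 * r + 1) * d - j) * Nat.choose ((2 * r + 1) * d) j :=
    add_pow (2 * r) 1 ((2 * r + 1) * d)
  have h2 : (2 * r) ^ (2 * r * d) * 1 ^ ((2 * r + 1) * d - 2 * r * d) *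
      Nat.choose ((2 * r + 1) * d) (2 * r * d) ≤ (2 * r + 1) ^ ((2 * r + 1) * d) := by
    rw [h1]
    apply Finset.single_le_sum (f := fun j => (2 * r) ^ j * 1 ^ ((2 * r + 1) * d - j) *
      Nat.choose ((2 * r + 1) * d) j) (fun _ _ => Nat.zero_le _)
    rw [Finset.mem_range]
    nlinarith
  have h3 : Nat.choose ((2 * r + 1) * d) (2 * r * d) = Nat.choose (d + 2 * (r * d)) d := by
    have h4 : (2 * r + 1) * d = d + 2 * (r * d) := by ring
    have h5 : 2 * r * d = 2 * (r * d) := by ring
    rw [h4, h5]
    have := Nat.choose_symm_add (a := d) (b := 2 * (r * d))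
    rw [this]
  rw [h3, one_pow, mul_one] at h2
  rw [← pow_mul, ← pow_mul]
  calc _ = (2 * r) ^ (2 * r * d) * Nat.choose (d + 2 * (r * d)) d := by ring
    _ ≤ _ := h2

theorem choose_lt {r d k : ℕ} (hd : 1 ≤ d)
    (hk : (2 * r + 1) ^ (2 * r + 1) < (2 * r) ^ (2 * r) * k ^ r) :
    Nat.choose (d + 2 * (r * d)) d < k ^ (r * d) := by
  have h1 := choose_bound r d
  have h2 : ((2 * r + 1) ^ (2 * r + 1)) ^ d < ((2 * r) ^ (2 * r) * k ^ r) ^ d :=
    Nat.pow_lt_pow_left hk (by omega)
  have h3 : ((2 * r) ^ (2 * r) * k ^ r) ^ d = k ^ (r * d) * ((2 * r) ^ (2 * r)) ^ d := by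
    rw [mul_pow, ← pow_mul k]
    ring
  have h4 := lt_of_le_of_lt h1 (h2.trans_eq h3)
  exact Nat.lt_of_mul_lt_mul_right h4

/-- Patterns of the same length. -/
theorem same_length_symbols (h2 : ∃ a b : α, a ≠ b) {P Q : Pattern α}
    (hlang : patternLanguage P ⊆ patternLanguage Q) (hlen : P.length = Q.length) :
    (∀ (i : ℕ) (b : α), Q[i]? = some (Sum.inr b) → P[i]? = some (Sum.inr b)) ∧
    (∀ (i j x : ℕ), Q[i]? = some (Sum.inl x) → Q[j]? = some (Sum.inl x) → P[i]? = P[j]?) := by
  obtain ⟨a, b, hab⟩ := h2
  have hread : ∀ f : ℕ → α, ∃ β : ℕ → α, ∀ (i : ℕ) (s : ℕ ⊕ α), Q[i]? = some s →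
      ∃ t : ℕ ⊕ α, P[i]? = some t ∧ letterOf f t = letterOf β s := by
    intro f
    obtain ⟨σ, hσ, hw⟩ := hlang (letterWord_mem f P)
    obtain ⟨c, hc, hcd, hcr⟩ := parse hσ Q _ hw 0 (by rw [List.length_map, hlen, Nat.add_zero])
    refine ⟨fun x => (σ x).head (hσ x), ?_⟩
    intro i s hs
    have h1 := hcr i s hs
    have hci : c i = 0 := Nat.le_zero.mp (hcd i)
    rw [hci, Nat.add_zero, List.getElem?_map] at h1
    have h2 : (substSymbol σ s)[0]? = some (letterOf (fun x => (σ x).head (hσ x)) s) := by
      cases s with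
      | inl x =>
        have h3 : substSymbol σ (Sum.inl x) = σ x := rfl
        rw [h3]
        have h4 : letterOf (fun x => (σ x).head (hσ x)) (Sum.inl x) = (σ x).head (hσ x) := rfl
        rw [h4]
        rw [← List.head?_eq_getElem?, List.head?_eq_some_head (hσ x)]
      | inr a => rfl
    rw [h2] at h1
    cases hP : P[i]? with
    | none => rw [hP] at h1; simp at h1
    | some t =>
      rw [hP] at h1
      simp only [Option.map_some, Option.some.injEq] at h1
      exact ⟨t, rfl, h1⟩
  constructor
  · intro i c hi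
    have hconst : ∀ f : ℕ → α, ∃ t : ℕ ⊕ α, P[i]? = some t ∧ letterOf f t = c := by
      intro f
      obtain ⟨β, hβ⟩ := hread f
      exact hβ i _ hi
    obtain ⟨t, ht, _⟩ := hconst (fun _ => a)
    cases t with
    | inr e =>
      obtain ⟨t', ht', ht''⟩ := hconst (fun _ => a)
      rw [ht] at ht'
      have := Option.some.inj ht'
      subst this
      have : e = c := ht''
      rw [← this]
      exact ht
    | inl x =>
      exfalso
      obtain ⟨t1, ht1, ht1'⟩ := hconst (fun _ => a)
      obtain ⟨t2, ht2, ht2'⟩ := hconst (fun _ => b)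
      rw [ht] at ht1 ht2
      have e1 := Option.some.inj ht1
      have e2 := Option.some.inj ht2
      subst e1
      subst e2
      have e3 : a = c := ht1'
      have e4 : b = c := ht2'
      exact hab (e3.trans e4.symm)
  · intro i j x hi hj
    have hsame : ∀ f : ℕ → α, ∃ t t' : ℕ ⊕ α, P[i]? = some t ∧ P[j]? = some t' ∧
        letterOf f t = letterOf f t' := by
      intro f
      obtain ⟨β, hβ⟩ := hread f
      obtain ⟨t, ht, ht'⟩ := hβ i _ hi
      obtain ⟨u, hu, hu'⟩ := hβ j _ hj
      exact ⟨t, u, ht, hu, ht'.trans hu'.symm⟩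
    obtain ⟨t, u, ht, hu, _⟩ := hsame (fun _ => a)
    have hsame' : ∀ f : ℕ → α, letterOf f t = letterOf f u := by
      intro f
      obtain ⟨t1, u1, ht1, hu1, h1⟩ := hsame f
      rw [ht] at ht1
      rw [hu] at hu1
      rw [Option.some.inj ht1, Option.some.inj hu1]
      exact h1
    rw [ht, hu]
    congr 1
    cases t with
    | inr e =>
      cases u with
      | inr e' =>
        have := hsame' (fun _ => a)
        have h3 : e = e' := this
        rw [h3]
      | inl y =>
        exfalso
        have h3 : e = a := hsame' (fun _ => a)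
        have h4 : e = b := hsame' (fun _ => b)
        exact hab (h3.symm.trans h4)
    | inl y =>
      cases u with
      | inr e' =>
        exfalso
        have h3 : a = e' := hsame' (fun _ => a)
        have h4 : b = e' := hsame' (fun _ => b)
        exact hab (h3.trans h4.symm)
      | inl z =>
        by_contra hne
        have hyz : y ≠ z := fun h => hne (by rw [h])
        have h3 := hsame' (fun n => if n = y then a else b)
        simp only [letterOf, Sum.elim_inl, if_true] at h3
        rw [if_neg (Ne.symm hyz)] at h3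
        exact hab h3

theorem same_length_numVar (h2 : ∃ a b : α, a ≠ b) {P Q : Pattern α}
    (hlang : patternLanguage P ⊆ patternLanguage Q) (hlen : P.length = Q.length) :
    numVar P ≤ numVar Q ∧ (numVar Q ≤ numVar P → patternLanguage Q ⊆ patternLanguage P) := by
  classical
  obtain ⟨hconst, hvar⟩ := same_length_symbols h2 hlang hlen
  -- each variable of P comes from a variable of Q
  have hex : ∀ x : {x // x ∈ patternVars P}, ∃ y : {y // y ∈ patternVars Q},
      ∀ i : ℕ, Q[i]? = some (Sum.inl y.1) → P[i]? = some (Sum.inl x.1) := by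
    rintro ⟨x, hx⟩
    obtain ⟨i, hi⟩ := List.getElem?_of_mem (mem_patternVars.mp hx)
    have hiP : i < P.length := by
      by_contra h
      rw [List.getElem?_eq_none (by omega)] at hi
      exact absurd hi (by simp)
    have hiQ : i < Q.length := by omega
    have hQi : Q[i]? = some Q[i] := List.getElem?_eq_getElem hiQ
    cases hs : Q[i] with
    | inr b =>
      exfalso
      rw [hs] at hQi
      have := hconst i b hQi
      rw [hi] at this
      simp at this
    | inl y =>
      rw [hs] at hQi
      refine ⟨⟨y, mem_patternVars.mpr (List.mem_of_getElem? hQi)⟩, ?_⟩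
      intro j hj
      rw [← hi]
      exact hvar j i y hj hQi
  choose ψ hψ using hex
  have hψinj : Function.Injective ψ := by
    intro x x' hxx
    have h1 : ∃ i : ℕ, Q[i]? = some (Sum.inl (ψ x).1) :=
      List.getElem?_of_mem (mem_patternVars.mp (ψ x).2)
    obtain ⟨i, hi⟩ := h1
    have h3 := hψ x i hi
    rw [hxx] at hi
    have h4 := hψ x' i hi
    rw [h3] at h4
    have h5 := Sum.inl.inj (Option.some.inj h4)
    exact Subtype.ext h5
  have hcard : numVar P ≤ numVar Q := by
    have := Fintype.card_le_of_injective ψ hψinj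
    rw [Fintype.card_coe, Fintype.card_coe] at this
    exact this
  refine ⟨hcard, ?_⟩
  intro hge
  have hbij : Function.Bijective ψ := by
    rw [Fintype.bijective_iff_injective_and_card]
    refine ⟨hψinj, ?_⟩
    rw [Fintype.card_coe, Fintype.card_coe]
    exact le_antisymm hcard hge
  rintro w ⟨σ, hσ, hw⟩
  refine ⟨fun x => if h : x ∈ patternVars P then σ (ψ ⟨x, h⟩).1 else σ 0, ?_, ?_⟩
  · intro x
    simp only
    split_ifs
    · exact hσ _
    · exact hσ _
  · rw [hw]
    have hmap : ∀ (τ : ℕ → List α), (∀ (i : ℕ) (s t : ℕ ⊕ α), Q[i]? = some s → P[i]? = some t →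
        substSymbol σ s = substSymbol τ t) →
        Q.flatMap (substSymbol σ) = P.flatMap (substSymbol τ) := by
      intro τ hτ
      rw [List.flatMap_def, List.flatMap_def]
      congr 1
      apply List.ext_getElem?
      intro i
      rw [List.getElem?_map, List.getElem?_map]
      rcases Nat.lt_or_ge i Q.length with h | h
      · have h1 : Q[i]? = some Q[i] := List.getElem?_eq_getElem h
        have h1' : P[i]? = some P[i] := List.getElem?_eq_getElem (by omega)
        rw [h1, h1', Option.map_some, Option.map_some, hτ i _ _ h1 h1']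
      · rw [List.getElem?_eq_none h, List.getElem?_eq_none (by omega : P.length ≤ i)]
        rfl
    apply hmap
    intro i s t hs ht
    cases s with
    | inr b =>
      have := hconst i b hs
      rw [ht] at this
      rw [Option.some.inj this]
      rfl
    | inl y =>
      have hy : y ∈ patternVars Q := mem_patternVars.mpr (List.mem_of_getElem? hs)
      obtain ⟨x, hx⟩ := hbij.2 ⟨y, hy⟩
      have h3 := hψ x i (by rw [hx]; exact hs)
      rw [ht] at h3
      rw [Option.some.inj h3]
      change σ y = (if h : x.1 ∈ patternVars P then σ (ψ ⟨x.1, h⟩).1 else σ 0)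
      rw [dif_pos x.2]
      have : ψ ⟨x.1, x.2⟩ = ⟨y, hy⟩ := hx
      rw [this]

/-- The strict monotonicity of `(r+1)|p| - #var(p)`. -/
theorem strict_mono [Fintype α] {r : ℕ} (hcard : 2 ≤ Fintype.card α)
    (hk : (2 * r + 1) ^ (2 * r + 1) < (2 * r) ^ (2 * r) * (Fintype.card α) ^ r)
    {P Q : Pattern α} (h : patternLanguage P ⊂ patternLanguage Q) :
    (r + 1) * Q.length + numVar P < (r + 1) * P.length + numVar Q := by
  classical
  have h2 : ∃ a b : α, a ≠ b := by
    have : 1 < Fintype.card α := by omega
    rw [Fintype.one_lt_card_iff] at this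
    exact this
  have : Nonempty α := ⟨h2.choose⟩
  have hlen := length_le_of_subset h.1
  obtain ⟨d, hd⟩ := Nat.exists_eq_add_of_le hlen
  rcases Nat.eq_zero_or_pos d with h0 | hpos
  · subst h0
    rw [Nat.add_zero] at hd
    obtain ⟨h3, h4⟩ := same_length_numVar h2 h.1 hd
    rw [hd]
    have : numVar P < numVar Q := by
      by_contra hge
      exact h.2 (h4 (by omega))
    omega
  · by_contra hnot
    have hV : numVar Q + d + r * d ≤ numVar P := by
      rw [hd] at hnot
      have h5 : (r + 1) * (Q.length + d) = (r + 1) * Q.length + (r * d + d) := by ring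
      rw [h5] at hnot
      omega
    have h6 := main_count P Q h.1 d (r * d) hd hV
    have h7 := choose_lt (d := d) hpos hk
    omega

end Pool.Agent.Helper92.IncDepth
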