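import Mathlib
import Pool.Agent.Helper92.IncDepth.Chain

namespace Pool.Agent.Helper92.IncDepth

open Finset

variable {α : Type}

theorem two_letters [Fintype α] (hcard : 2 ≤ Fintype.card α) : ∃ a b : α, a ≠ b := by
  have : 1 < Fintype.card α := by omega
  rw [Fintype.one_lt_card_iff] at this
  exact this

theorem invariants_of_eq (h2 : ∃ a b : α, a ≠ b) {P Q : Pattern α}
    (h : patternLanguage P = patternLanguage Q) :
    P.length = Q.length ∧ numVar P = numVar Q := by
  have : Nonempty α := ⟨h2.choose⟩
  have h1 := length_le_of_subset h.le
  have h1' := length_le_of_subset h.ge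
  have hl : P.length = Q.length := le_antisymm h1' h1
  exact ⟨hl, le_antisymm (same_length_numVar h2 h.le hl).1 (same_length_numVar h2 h.ge hl.symm).1⟩

theorem numVar_single (x : ℕ) : numVar ([Sum.inl x] : Pattern α) = 1 := by
  have h : patternVars ([Sum.inl x] : Pattern α) = {x} := by
    ext y
    rw [mem_patternVars, Finset.mem_singleton, List.mem_singleton, Sum.inl.injEq]
  unfold numVar
  rw [h, Finset.card_singleton]

/-- The upper bound for the length of a chain. -/
theorem chain_upper [Fintype α] {r : ℕ} (hcard : 2 ≤ Fintype.card α)
    (hk : (2 * r + 1) ^ (2 * r + 1) < (2 * r) ^ (2 * r) * (Fintype.card α) ^ r)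
    {p : Pattern α} {n : ℕ} (hn : n ∈ chainLengths p) :
    n + numVar p + r ≤ (r + 1) * p.length := by
  have h2 := two_letters hcard
  obtain ⟨q, hq, h0, hstep, hend⟩ := hn
  have key : ∀ i ≤ n, i + numVar (q i) + r ≤ (r + 1) * (q i).length := by
    intro i
    induction i with
    | zero =>
      intro _
      obtain ⟨h3, h4⟩ := invariants_of_eq h2 h0
      rw [h3, h4, numVar_single, List.length_singleton]
      omega
    | succ i ih =>
      intro hi
      have h3 := ih (by omega)
      have h4 := strict_mono hcard hk (hstep i (by omega))
      omega
  have h5 := key n le_rfl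
  obtain ⟨h6, h7⟩ := invariants_of_eq h2 hend
  rw [h6, h7] at h5
  exact h5

theorem chain_extend {p p' : Pattern α} (hp : p ≠ []) {n : ℕ} (hn : n ∈ chainLengths p')
    (h : patternLanguage p ⊂ patternLanguage p') : n + 1 ∈ chainLengths p := by
  obtain ⟨q, hq, h0, hstep, hend⟩ := hn
  refine ⟨fun i => if i ≤ n then q i else p, ?_, ?_, ?_, ?_⟩
  · intro i
    simp only
    split_ifs
    · exact hq i
    · exact hp
  · simp [h0]
  · intro i hi
    rcases Nat.lt_or_ge i n with h1 | h1
    · have e1 : (if i + 1 ≤ n then q (i + 1) else p) = q (i + 1) := if_pos (by omega)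
      have e2 : (if i ≤ n then q i else p) = q i := if_pos (by omega)
      simp only
      rw [e1, e2]
      exact hstep i h1
    · have h3 : i = n := by omega
      subst h3
      have e1 : (if i + 1 ≤ i then q (i + 1) else p) = p := if_neg (by omega)
      have e2 : (if i ≤ i then q i else p) = q i := if_pos le_rfl
      simp only
      rw [e1, e2, hend]
      exact h
  · simp

/-- The pattern `x_0 x_1 ... x_(L-1)`. -/
def gen (α : Type) (L : ℕ) : Pattern α := (List.range L).map Sum.inl

theorem gen_length (L : ℕ) : (gen α L).length = L := by simp [gen]

theorem numVar_gen (L : ℕ) : numVar (gen α L) = L := by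
  have h : patternVars (gen α L) = range L := by
    ext y
    rw [mem_patternVars, Finset.mem_range, gen, List.mem_map]
    constructor
    · rintro ⟨a, ha, hy⟩
      rw [Sum.inl.injEq] at hy
      rw [← hy]
      exact List.mem_range.mp ha
    · intro hy
      exact ⟨y, List.mem_range.mpr hy, rfl⟩
  unfold numVar
  rw [h, Finset.card_range]

theorem mem_gen {L : ℕ} {w : List α} : w ∈ patternLanguage (gen α (L + 1)) ↔ L + 1 ≤ w.length := by
  constructor
  · rintro ⟨σ, hσ, hw⟩
    have := length_flatMap_ge hσ (gen α (L + 1))
    rw [← hw, gen_length] at this
    exact this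
  · intro hw
    refine ⟨fun i => if i < L then (w[i]?).toList else w.drop L, ?_, ?_⟩
    · intro i
      simp only
      split_ifs with hi
      · rw [List.getElem?_eq_getElem (by omega)]
        simp
      · intro h
        have := congrArg List.length h
        rw [List.length_drop, List.length_nil] at this
        omega
    · have h1 : ∀ M, M ≤ L → (List.range M).flatMap
          (fun i => if i < L then (w[i]?).toList else w.drop L) = w.take M := by
        intro M
        induction M with
        | zero => intro _; simp
        | succ M ih =>
          intro hM
          rw [List.range_succ, List.flatMap_append, ih (by omega), List.flatMap_singleton,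
            if_pos (by omega), ← List.take_add_one]
      have h2 : (gen α (L + 1)).flatMap
          (substSymbol (fun i => if i < L then (w[i]?).toList else w.drop L)) =
          (List.range (L + 1)).flatMap (fun i => if i < L then (w[i]?).toList else w.drop L) := by
        unfold gen
        rw [List.flatMap_map]
        rfl
      rw [h2, List.range_succ, List.flatMap_append, h1 L le_rfl, List.flatMap_singleton,
        if_neg (lt_irrefl _), List.take_append_drop]

theorem lang_eq_gen (h2 : ∃ a b : α, a ≠ b) {p : Pattern α} {L : ℕ} (hL : p.length = L + 1)
    (hv : numVar p = p.length) : patternLanguage p = patternLanguage (gen α (L + 1)) := by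
  have hsub : patternLanguage p ⊆ patternLanguage (gen α (L + 1)) := by
    rintro w ⟨σ, hσ, hw⟩
    rw [mem_gen, hw, ← hL]
    exact length_flatMap_ge hσ p
  refine Set.Subset.antisymm hsub ?_
  exact (same_length_numVar h2 hsub (by rw [gen_length, hL])).2 (by rw [numVar_gen, hv, hL])

theorem gen_ssubset [Nonempty α] (L : ℕ) :
    patternLanguage (gen α (L + 2)) ⊂ patternLanguage (gen α (L + 1)) := by
  constructor
  · intro w hw
    rw [mem_gen] at hw ⊢
    omega
  · intro h
    have := length_le_of_subset h
    rw [gen_length, gen_length] at this
    omega

theorem exists_fresh (h2 : ∃ a b : α, a ≠ b) {p : Pattern α} (hlt : numVar p < p.length) :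
    ∃ p' : Pattern α, p'.length = p.length ∧ numVar p' = numVar p + 1 ∧
      patternLanguage p ⊂ patternLanguage p' := by
  classical
  have hex : ∃ i ∈ range p.length, i ∉ firstPos p := by
    by_contra hno
    push Not at hno
    have h1 : range p.length ⊆ firstPos p := hno
    have h3 := Finset.card_le_card h1
    rw [card_firstPos, Finset.card_range] at h3
    omega
  obtain ⟨i, hi, hif⟩ := hex
  rw [Finset.mem_range] at hi
  obtain ⟨z, hz⟩ := Infinite.exists_notMem_finset (patternVars p)
  have hvars : patternVars (p.set i (Sum.inl z)) = insert z (patternVars p) := by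
    ext x
    rw [mem_patternVars, Finset.mem_insert, mem_patternVars]
    constructor
    · intro hx
      rcases List.mem_or_eq_of_mem_set hx with h | h
      · exact Or.inr h
      · exact Or.inl (Sum.inl.inj h)
    · rintro (hx | hx)
      · rw [hx]
        exact List.mem_set hi _
      · obtain ⟨j, hj⟩ := List.getElem?_of_mem hx
        obtain ⟨a, _, ha, ha'⟩ := exists_firstPos hj
        have hne : i ≠ a := fun h => hif (h ▸ ha)
        have h3 : (p.set i (Sum.inl z))[a]? = some (Sum.inl x) := by
          rw [List.getElem?_set_ne hne]
          exact ha'
        exact List.mem_of_getElem? h3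
  have hnum : numVar (p.set i (Sum.inl z)) = numVar p + 1 := by
    unfold numVar
    rw [hvars, Finset.card_insert_of_notMem hz]
  refine ⟨p.set i (Sum.inl z), List.length_set, hnum, ?_, ?_⟩
  · rintro w ⟨σ, hσ, hw⟩
    refine ⟨Function.update σ z (substSymbol σ p[i]), ?_, ?_⟩
    · intro x
      by_cases hx : x = z
      · rw [hx, Function.update_self]
        exact substSymbol_ne_nil hσ _
      · rw [Function.update_of_ne hx]
        exact hσ x
    · rw [hw, List.flatMap_def, List.flatMap_def]
      congr 1
      apply List.ext_getElem?
      intro j
      rw [List.getElem?_map, List.getElem?_map]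
      by_cases hji : i = j
      · subst hji
        rw [List.getElem?_set_self hi, List.getElem?_eq_getElem hi, Option.map_some,
          Option.map_some]
        congr 1
        change substSymbol σ p[i] = Function.update σ z (substSymbol σ p[i]) z
        rw [Function.update_self]
      · rw [List.getElem?_set_ne hji]
        cases hs : p[j]? with
        | none => rfl
        | some s =>
          rw [Option.map_some, Option.map_some]
          congr 1
          cases s with
          | inr b => rfl
          | inl x =>
            have hx : x ∈ patternVars p := mem_patternVars.mpr (List.mem_of_getElem? hs)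
            have hxz : x ≠ z := fun h => hz (h ▸ hx)
            change σ x = Function.update σ z (substSymbol σ p[i]) x
            rw [Function.update_of_ne hxz]
  · intro h
    have h3 := (same_length_numVar h2 h List.length_set).1
    omega

/-- The lower bound: a chain of length `2|p| - #var(p) - 1`. -/
theorem chain_lower (h2 : ∃ a b : α, a ≠ b) : ∀ (m : ℕ) (p : Pattern α), p ≠ [] →
    2 * p.length = numVar p + 1 + m → m ∈ chainLengths p := by
  have : Nonempty α := ⟨h2.choose⟩
  intro m
  induction m with
  | zero =>
    intro p hp hm
    have h3 := numVar_le_length p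
    have h4 := List.length_pos_of_ne_nil hp
    have h5 : p.length = 0 + 1 := by omega
    have h6 := lang_eq_gen h2 h5 (by omega)
    have h7 : patternLanguage p = patternLanguage ([Sum.inl 0] : Pattern α) := h6
    exact ⟨fun _ => p, fun _ => hp, h7, fun i hi => absurd hi (Nat.not_lt_zero i), rfl⟩
  | succ m ih =>
    intro p hp hm
    have h3 := numVar_le_length p
    have h4 := List.length_pos_of_ne_nil hp
    rcases Nat.lt_or_ge (numVar p) p.length with hlt | hge
    · obtain ⟨p', hl, hn, hss⟩ := exists_fresh h2 hlt
      have hp' : p' ≠ [] := by
        intro h
        rw [h, List.length_nil] at hl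
        omega
      exact chain_extend hp (ih p' hp' (by rw [hl, hn]; omega)) hss
    · have h5 : p.length = (m + 1) + 1 := by omega
      have h6 := lang_eq_gen h2 h5 (by omega)
      have h7 : gen α (m + 1) ≠ [] := by
        intro h
        have := congrArg List.length h
        rw [gen_length, List.length_nil] at this
        omega
      have h8 := ih (gen α (m + 1)) h7 (by rw [gen_length, numVar_gen]; omega)
      apply chain_extend hp h8
      rw [h6]
      exact gen_ssubset m

end Pool.Agent.Helper92.IncDepth
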